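import Pool.Agent.QR.RankR

/-!
# Dividing by an element

Let `V` be a space such that `1` and independent elements of `V` are independent over `K`
(`Free`). Then independent elements of `W = k + V` are independent over `K` (`Free0`), and for a
nonzero `v₀ ∈ W` and a space `C ≤ W` which does not contain `v₀` the space `C / v₀` is `Free`.
-/

namespace Pool.Agent.QNH

open Module Submodule Pool.Agent.QR

variable {k K L : Type*} [Field k] [Field K] [Field L] [Algebra k L] [Algebra K L]

/-- Independent elements of `W` are independent over `K`. -/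
def Free0 (K : Type*) {k L : Type*} [Field k] [Field K] [Field L] [Algebra k L] [Algebra K L]
    (W : Submodule k L) : Prop :=
  ∀ (ι : Type) [Fintype ι] (v : ι → L), (∀ i, v i ∈ W) → LinearIndependent k v →
    ∀ c : ι → K, ∑ i, algebraMap K L (c i) * v i = 0 → ∀ i, c i = 0

theorem Free0.mono {W U : Submodule k L} (h : Free0 K W) (hU : U ≤ W) : Free0 K U :=
  fun ι _ v hv => h ι v fun i => hU (hv i)

theorem free0_of_free (hs : Sub k K L) {V : Submodule k L} (hV : Free K V) :
    Free0 K (span k {(1 : L)} ⊔ V) := by
  classical
  intro ι _ v hv hi c hc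
  choose κ hκ using hs
  -- the constant terms
  have hv' : ∀ i, ∃ (a : k) (y : L), y ∈ V ∧ v i = algebraMap k L a + y := by
    intro i
    obtain ⟨u, hu, y, hy, huy⟩ := mem_sup.1 (hv i)
    obtain ⟨a, rfl⟩ := mem_span_singleton.1 hu
    exact ⟨a, y, hy, by rw [← huy, Algebra.smul_def, mul_one]⟩
  choose a y hy hay using hv'
  by_cases ha : ∀ i, a i = 0
  · have hvV : ∀ i, v i ∈ V := fun i => by
      rw [hay i, ha i, map_zero, zero_add]
      exact hy i
    exact (hV ι v hvV hi 0 c (by rw [map_zero, zero_add, hc])).2
  push Not at ha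
  obtain ⟨i0, hi0⟩ := ha
  -- the elements without constant term
  let s : ι → k := fun i => a i / a i0
  let z : ι → L := fun i => v i - s i • v i0
  have hzV : ∀ i, z i ∈ V := fun i => by
    have e : z i = y i - s i • y i0 := by
      have h1 : algebraMap k L (s i) * algebraMap k L (a i0) = algebraMap k L (a i) := by
        rw [← map_mul, div_mul_cancel₀ _ hi0]
      simp only [z]
      rw [hay i, hay i0, smul_add, Algebra.smul_def, Algebra.smul_def, h1]
      ring
    rw [e]
    exact sub_mem (hy i) (smul_mem _ _ (hy i0))
  let z' : {i // i ≠ i0} → L := fun i => z i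
  have hzi : LinearIndependent k z' := by
    rw [Fintype.linearIndependent_iff]
    intro g hg
    let g' : ι → k := fun i => if h : i = i0 then - ∑ j : {i // i ≠ i0}, g j * s j else g ⟨i, h⟩
    have h0 : ∑ i, g' i • v i = 0 := by
      have h1 : ∑ i, g' i • v i = g' i0 • v i0 + ∑ i : {i // i ≠ i0}, g' i • v i := by
        rw [← Finset.add_sum_erase _ _ (Finset.mem_univ i0)]
        congr 1
        exact (Finset.sum_subtype _ (fun i => by simp) fun i => g' i • v i)
      have h2 : ∀ i : {i // i ≠ i0}, g' i = g i := fun i => by
        simp only [g', dif_neg i.2]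
      have h3 : g' i0 = - ∑ j : {i // i ≠ i0}, g j * s j := by
        simp only [g', dif_pos]
      rw [h1, h3]
      rw [← hg]
      simp only [h2, z', z, smul_sub, Finset.sum_sub_distrib, neg_smul, Finset.sum_smul, mul_smul]
      abel
    have h4 := Fintype.linearIndependent_iff.1 hi g' h0
    intro i
    have := h4 i
    simpa only [g', dif_neg i.2] using this
  set C : K := ∑ i, c i * κ (s i) with hC
  -- the relation
  have hrel : algebraMap K L C * v i0 + ∑ i : {i // i ≠ i0}, algebraMap K L (c i) * z' i = 0 := by
    have h1 : ∑ i, algebraMap K L (c i) * v i =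
        algebraMap K L C * v i0 + ∑ i, algebraMap K L (c i) * z i := by
      rw [hC, map_sum, Finset.sum_mul, ← Finset.sum_add_distrib]
      refine Finset.sum_congr rfl fun i _ => ?_
      simp only [z]
      rw [map_mul, hκ, Algebra.smul_def]
      ring
    have hz0 : z i0 = 0 := by
      simp only [z, s]
      rw [div_self hi0, one_smul, sub_self]
    have h2 : ∑ i, algebraMap K L (c i) * z i =
        ∑ i : {i // i ≠ i0}, algebraMap K L (c i) * z' i := by
      rw [← Finset.add_sum_erase _ _ (Finset.mem_univ i0), hz0, mul_zero, zero_add]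
      exact (Finset.sum_subtype _ (fun i => by simp) fun i => algebraMap K L (c i) * z i)
    rw [← h2, ← h1, hc]
  have ha0 : κ (a i0) ≠ 0 := Sub.ne (hκ _) hi0
  have key : C = 0 ∧ ∀ i : {i // i ≠ i0}, c i = 0 := by
    by_cases hmem : y i0 ∈ span k (Set.range z')
    · obtain ⟨β, hβ⟩ := (mem_span_range_iff_exists_fun k).1 hmem
      have h1 := hV {i // i ≠ i0} z' (fun i => hzV i) hzi (C * κ (a i0))
        (fun i => c i + C * κ (β i)) (by
          rw [← hrel, hay i0, ← hβ, map_mul, hκ, mul_add, add_assoc]
          congr 1
          rw [Finset.mul_sum, ← Finset.sum_add_distrib]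
          refine Finset.sum_congr rfl fun i _ => ?_
          rw [map_add, map_mul, hκ, Algebra.smul_def]
          ring)
      have hC0 : C = 0 := (mul_eq_zero.1 h1.1).resolve_right ha0
      refine ⟨hC0, fun i => ?_⟩
      have := h1.2 i
      rwa [hC0, zero_mul, add_zero] at this
    · have hw : LinearIndependent k (fun o : Option {i // i ≠ i0} => (o.elim (y i0) z' : L)) := by
        rw [linearIndependent_option]
        exact ⟨hzi, hmem⟩
      have h1 := hV (Option {i // i ≠ i0}) (fun o => o.elim (y i0) z') (fun o => by
          cases o with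
          | none => exact hy i0
          | some i => exact hzV i) hw (C * κ (a i0)) (fun o => o.elim C fun i => c i) (by
          rw [Fintype.sum_option, ← hrel, hay i0, map_mul, hκ]
          simp only [Option.elim]
          ring)
      have hC0 : C = 0 := h1.2 none
      exact ⟨hC0, fun i => h1.2 (some i)⟩
  have hall : ∀ i, i ≠ i0 → c i = 0 := fun i hi' => key.2 ⟨i, hi'⟩
  have hc0 : c i0 = 0 := by
    have h1 : C = c i0 * κ (s i0) := by
      rw [hC]
      refine Finset.sum_eq_single i0 (fun i _ h => by rw [hall i h, zero_mul]) fun h =>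
        absurd (Finset.mem_univ _) h
    have h2 : κ (s i0) ≠ 0 := Sub.ne (hκ _) (by
      simp only [s]
      rw [div_self hi0]
      exact one_ne_zero)
    rw [key.1] at h1
    exact (mul_eq_zero.1 h1.symm).resolve_right h2
  intro i
  by_cases h : i = i0
  · rw [h, hc0]
  · exact hall i h

/-- The space `C / v₀`. -/
def dv (v₀ : L) (C : Submodule k L) : Submodule k L := C.comap (LinearMap.mulLeft k v₀)

theorem mem_dv {v₀ : L} {C : Submodule k L} {y : L} : y ∈ dv v₀ C ↔ v₀ * y ∈ C := Iff.rfl

theorem free_dv {W C : Submodule k L} (hW : Free0 K W) (hC : C ≤ W) {v₀ : L} (h0 : v₀ ∈ W)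
    (hv : v₀ ∉ C) : Free K (dv v₀ C) := by
  classical
  have hne : v₀ ≠ 0 := fun h => hv (by rw [h]; exact zero_mem _)
  intro ι _ v hvi hi a c hac
  have hw : LinearIndependent k (fun o : Option ι => (o.elim v₀ fun i => v₀ * v i : L)) := by
    rw [linearIndependent_option]
    refine ⟨?_, fun h => hv ?_⟩
    · have := hi.map' (LinearMap.mulLeft k v₀) (LinearMap.ker_eq_bot.2 fun x y hxy =>
        mul_left_cancel₀ hne hxy)
      exact this
    · refine (span_le.2 ?_) h
      rintro _ ⟨i, rfl⟩
      exact hvi i
  have h1 := hW (Option ι) (fun o => o.elim v₀ fun i => v₀ * v i) (fun o => by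
      cases o with
      | none => exact h0
      | some i => exact hC (hvi i)) hw (fun o => o.elim a c) (by
      rw [Fintype.sum_option]
      simp only [Option.elim]
      have : v₀ * (algebraMap K L a + ∑ i, algebraMap K L (c i) * v i) = 0 := by
        rw [hac, mul_zero]
      rw [← this, mul_add, Finset.mul_sum]
      congr 1
      · ring
      · exact Finset.sum_congr rfl fun i _ => by ring)
  exact ⟨h1 none, fun i => h1 (some i)⟩

end Pool.Agent.QNH
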