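import Pool.Agent.QS.Fin

/-!
# Translations of relations, and homogeneous relations

A relation of degree at most `d` between numbers stays one if algebraic numbers are added to the
numbers; a homogeneous relation between `v₀, …` is a relation between the quotients by `v₀`.
-/

namespace Pool.Agent.QNH

open MvPolynomial Module Submodule Pool.Agent.QS

/-- translation by `c` -/
noncomputable def tr {R σ : Type} [CommRing R] (c : σ → R) :
    MvPolynomial σ R →ₐ[R] MvPolynomial σ R :=
  bind₁ fun i => X i + C (c i)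

theorem eval_tr {R σ : Type} [CommRing R] (c z : σ → R) (P : MvPolynomial σ R) :
    eval z (tr c P) = eval (fun i => z i + c i) P := by
  rw [tr, ← coe_aeval_eq_eval, ← coe_aeval_eq_eval]
  simp only [RingHom.coe_coe]
  rw [aeval_bind₁]
  simp

theorem tr_tr {R σ : Type} [CommRing R] (c : σ → R) (P : MvPolynomial σ R) :
    tr (fun i => - c i) (tr c P) = P := by
  have : (tr (fun i => - c i)).comp (tr c) = AlgHom.id R (MvPolynomial σ R) := by
    ext i
    simp [tr]
  exact DFunLike.congr_fun this P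

theorem tr_ne {R σ : Type} [CommRing R] (c : σ → R) {P : MvPolynomial σ R} (hP : P ≠ 0) :
    tr c P ≠ 0 := fun h => hP (by rw [← tr_tr c P, h, map_zero])

theorem totalDegree_bind {R σ τ : Type} [CommRing R] (g : σ → MvPolynomial τ R)
    (hg : ∀ i, (g i).totalDegree ≤ 1) (P : MvPolynomial σ R) :
    (bind₁ g P).totalDegree ≤ P.totalDegree := by
  rw [bind₁, aeval_def, eval₂_eq]
  refine (totalDegree_finsetSum_le fun e he => ?_)
  refine (totalDegree_mul _ _).trans ?_
  rw [algebraMap_eq, totalDegree_C, zero_add]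
  refine (totalDegree_finsetProd _ _).trans ?_
  have h1 : ∀ i ∈ e.support, (g i ^ e i).totalDegree ≤ e i := fun i _ => by
    refine (totalDegree_pow _ _).trans ?_
    calc e i * _ ≤ e i * 1 := Nat.mul_le_mul_left _ (hg i)
      _ = e i := mul_one _
  exact (Finset.sum_le_sum h1).trans (le_totalDegree he)

theorem totalDegree_tr {R σ : Type} [CommRing R] [Nontrivial R] (c : σ → R)
    (P : MvPolynomial σ R) : (tr c P).totalDegree ≤ P.totalDegree :=
  totalDegree_bind _ (fun i => (totalDegree_add _ _).trans (max_le (by rw [totalDegree_X])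
    (by rw [totalDegree_C]; exact zero_le_one))) P

theorem lift {σ : Type} (P : MvPolynomial σ ℂ) (h : ∀ m, IsAlgebraic ℚ (P.coeff m)) :
    ∃ Q : MvPolynomial σ (algebraicClosure ℚ ℂ),
      MvPolynomial.map (algebraMap (algebraicClosure ℚ ℂ) ℂ) Q = P := by
  have : P ∈ Set.range (MvPolynomial.map (σ := σ) (algebraMap (algebraicClosure ℚ ℂ) ℂ)) := by
    rw [mem_range_map_iff_coeffs_subset]
    intro c hc
    obtain ⟨e, -, rfl⟩ := mem_coeffs_iff.1 (Finset.mem_coe.1 hc)
    exact ⟨⟨P.coeff e, mem_algebraicClosure_iff.2 (h e)⟩, rfl⟩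
  exact this

theorem alg_map {σ : Type} (Q : MvPolynomial σ (algebraicClosure ℚ ℂ)) (e : σ →₀ ℕ) :
    IsAlgebraic ℚ ((MvPolynomial.map (algebraMap (algebraicClosure ℚ ℂ) ℂ) Q).coeff e) := by
  rw [coeff_map]
  exact mem_algebraicClosure_iff.1 (Q.coeff e).2

theorem alg_bind {σ τ : Type} (g : σ → MvPolynomial τ ℂ)
    (hg : ∀ i m, IsAlgebraic ℚ ((g i).coeff m)) {P : MvPolynomial σ ℂ}
    (hP : ∀ m, IsAlgebraic ℚ (P.coeff m)) (m : τ →₀ ℕ) : IsAlgebraic ℚ ((bind₁ g P).coeff m) := by
  obtain ⟨Q, rfl⟩ := lift P hP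
  choose g' hg' using fun i => lift (g i) (hg i)
  have h1 : (fun i => MvPolynomial.map (algebraMap (algebraicClosure ℚ ℂ) ℂ) (g' i)) = g :=
    funext hg'
  rw [← h1, ← map_bind₁]
  exact alg_map _ m

theorem alg_tr {σ : Type} (c : σ → ℂ) (hc : ∀ i, IsAlgebraic ℚ (c i)) {P : MvPolynomial σ ℂ}
    (hP : ∀ m, IsAlgebraic ℚ (P.coeff m)) (m : σ →₀ ℕ) :
    IsAlgebraic ℚ ((tr c P).coeff m) := by
  classical
  refine alg_bind _ (fun i m => ?_) hP m
  rw [coeff_add, coeff_X, coeff_C]
  refine IsAlgebraic.add ?_ ?_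
  · split_ifs
    · exact isAlgebraic_one
    · exact isAlgebraic_zero
  · split_ifs
    · exact hc i
    · exact isAlgebraic_zero

/-- adding algebraic constants -/
theorem badC_add {d k : ℕ} {x c : Fin k → ℂ} {y b : ℂ} (hc : ∀ i, IsAlgebraic ℚ (c i))
    (hb : IsAlgebraic ℚ b) (h : BadC d (fun i => x i + c i) (y + b)) : BadC d x y := by
  obtain ⟨P, h0, h1, h2, h3⟩ := h
  refine ⟨tr (Fin.cons b c) P, tr_ne _ h0, (totalDegree_tr _ P).trans h1,
    alg_tr _ (fun i => ?_) h2, ?_⟩
  · refine Fin.cases ?_ (fun i => ?_) i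
    · exact hb
    · exact hc i
  · rw [eval_tr, ← h3]
    congr 2
    funext i
    refine Fin.cases ?_ (fun i => ?_) i
    · simp
    · simp

theorem badC_add_iff {d k : ℕ} {x c : Fin k → ℂ} {y b : ℂ} (hc : ∀ i, IsAlgebraic ℚ (c i))
    (hb : IsAlgebraic ℚ b) : BadC d (fun i => x i + c i) (y + b) ↔ BadC d x y := by
  refine ⟨badC_add hc hb, fun h => ?_⟩
  have h1 : BadC d (fun i => (x i + c i) + - c i) ((y + b) + - b) := by
    have e1 : (fun i => (x i + c i) + - c i) = x := funext fun i => by ring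
    have e2 : (y + b) + - b = y := by ring
    rw [e1, e2]
    exact h
  exact badC_add (fun i => (hc i).neg) hb.neg h1

/-- the hypothesis on `x` is invariant under translations -/
theorem noRel_add {k D : ℕ} {x : Fin k → ℂ} {c : Fin k → ℂ} (hc : ∀ i, IsAlgebraic ℚ (c i))
    (hx : ∀ P : MvPolynomial (Fin k) ℂ, (∀ m, IsAlgebraic ℚ (P.coeff m)) →
      P.totalDegree ≤ D → eval x P = 0 → P = 0) :
    ∀ P : MvPolynomial (Fin k) ℂ, (∀ m, IsAlgebraic ℚ (P.coeff m)) →
      P.totalDegree ≤ D → eval (fun i => x i + c i) P = 0 → P = 0 := by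
  intro P h1 h2 h3
  by_contra h0
  exact tr_ne c h0 (hx _ (alg_tr c hc h1) ((totalDegree_tr c P).trans h2) (by rw [eval_tr, h3]))

/-- a homogeneous relation between `v₀`, `x`, `y` is a relation between `x / v₀`, `y / v₀` -/
theorem badC_of_homogeneous {d : ℕ} {v₀ x y : ℂ} (h0 : v₀ ≠ 0) {P : MvPolynomial (Fin 3) ℂ}
    (hP : P ≠ 0) (hh : P.IsHomogeneous d) (ha : ∀ m, IsAlgebraic ℚ (P.coeff m))
    (he : eval ![v₀, x, y] P = 0) : BadC d (fun _ : Fin 1 => x / v₀) (y / v₀) := by
  -- the polynomial `P (1, X₁, X₀)`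
  let g : Fin 3 → MvPolynomial (Fin 2) ℂ := ![1, X 1, X 0]
  have hev : ∀ z : Fin 2 → ℂ, eval z (bind₁ g P) = eval ![1, z 1, z 0] P := fun z => by
    rw [← coe_aeval_eq_eval, ← coe_aeval_eq_eval]
    simp only [RingHom.coe_coe]
    rw [aeval_bind₁]
    congr 2
    funext i
    fin_cases i <;> simp [g]
  have hscale : ∀ a b c : ℂ, a ≠ 0 → eval ![a, b, c] P = a ^ d * eval ![1, b / a, c / a] P := by
    intro a b c hac
    rw [eval_eq, eval_eq, Finset.mul_sum]
    refine Finset.sum_congr rfl fun e he => ?_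
    have hd : ∑ i ∈ e.support, e i = d := by
      have h1 := hh (mem_support_iff.1 he)
      rw [Finsupp.weight_apply] at h1
      simpa [Finsupp.sum] using h1
    have h2 : ∀ i : Fin 3, (![a, b, c] : Fin 3 → ℂ) i = a * (![1, b / a, c / a] : Fin 3 → ℂ) i := by
      intro i
      fin_cases i
      · simp
      · simp [mul_div_cancel₀ _ hac]
      · simp [mul_div_cancel₀ _ hac]
    have h3 : ∏ i ∈ e.support, (![a, b, c] : Fin 3 → ℂ) i ^ e i =
        a ^ d * ∏ i ∈ e.support, (![1, b / a, c / a] : Fin 3 → ℂ) i ^ e i := by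
      rw [← hd, ← Finset.prod_pow_eq_pow_sum, ← Finset.prod_mul_distrib]
      exact Finset.prod_congr rfl fun i _ => by rw [h2 i, mul_pow]
    rw [h3]
    ring
  refine ⟨bind₁ g P, ?_, ?_, ?_, ?_⟩
  · intro h
    apply hP
    have h1 : X 0 * P = 0 := by
      refine MvPolynomial.funext fun z => ?_
      rw [map_mul, eval_X, map_zero]
      by_cases hz : z 0 = 0
      · rw [hz, zero_mul]
      · have h2 : z = ![z 0, z 1, z 2] := by
          funext i
          fin_cases i <;> rfl
        rw [h2, hscale _ _ _ hz]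
        have h3 := hev ![z 2 / z 0, z 1 / z 0]
        rw [h, map_zero] at h3
        have h4 : (![1, z 1 / z 0, z 2 / z 0] : Fin 3 → ℂ) =
            ![1, (![z 2 / z 0, z 1 / z 0] : Fin 2 → ℂ) 1, (![z 2 / z 0, z 1 / z 0] : Fin 2 → ℂ) 0] := by
          funext i
          fin_cases i <;> rfl
        rw [h4, ← h3, mul_zero, mul_zero]
    exact (mul_eq_zero.1 h1).resolve_left (X_ne_zero 0)
  · refine (totalDegree_bind g (fun i => ?_) P).trans hh.totalDegree_le
    fin_cases i
    · simp [g]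
    · simp [g, totalDegree_X]
    · simp [g, totalDegree_X]
  · refine alg_bind g (fun i m => ?_) ha
    classical
    fin_cases i
    · simp only [g, Fin.zero_eta, Matrix.cons_val_zero]
      rw [← C_1, coeff_C]
      split_ifs
      · exact isAlgebraic_one
      · exact isAlgebraic_zero
    · simp only [g, Fin.mk_one, Matrix.cons_val_one, Matrix.cons_val_zero]
      rw [coeff_X]
      split_ifs
      · exact isAlgebraic_one
      · exact isAlgebraic_zero
    · simp only [g, Fin.reduceFinMk, Matrix.cons_val]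
      rw [coeff_X]
      split_ifs
      · exact isAlgebraic_one
      · exact isAlgebraic_zero
  · rw [hev]
    have h1 := hscale v₀ x y h0
    rw [he] at h1
    have h2 : (![1, (Fin.cons (y / v₀) (fun _ : Fin 1 => x / v₀) : Fin 2 → ℂ) 1,
        (Fin.cons (y / v₀) (fun _ : Fin 1 => x / v₀) : Fin 2 → ℂ) 0] : Fin 3 → ℂ) =
        ![1, x / v₀, y / v₀] := by
      funext i
      fin_cases i <;> rfl
    rw [h2]
    exact ((mul_eq_zero.1 h1.symm).resolve_left (pow_ne_zero _ h0))

end Pool.Agent.QNH
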