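import Pool.Agent.QN.FinN
import Pool.Agent.QNX.Curve
import Pool.Agent.QNX.ShiftC
import Pool.Agent.QNH.FreeH
import Pool.Agent.QNH.ShiftH

/-!
# Homogeneous relations of any degree, from linear independence over the algebraic numbers

`W` is a space over a field `F` of algebraic numbers whose independent elements are independent
over all algebraic numbers (`Free0`), for instance `F + F t₁ + ⋯ + F t_r` with logarithms `t_i`.
-/

namespace Pool.Agent.QNH

open MvPolynomial Module Submodule Pool.Agent.QS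

/-- explicit pairs without a relation of degree at most `d`, in a free space -/
theorem explicitFree (F : Subfield ℂ) (hF : ∀ c ∈ F, IsAlgebraic ℚ c) {d : ℕ} (hd : 0 < d)
    (t : Fin (d + 1) → ℂ) (hi : LinearIndependent F t)
    (hV : QR.Free (algebraicClosure ℚ ℂ) (span F (Set.range t))) :
    {j : F | BadC d (fun _ : Fin 1 => t 0)
      (∑ i : Fin d, (j : ℂ) ^ (i : ℕ) * t i.succ)}.encard ≤
      ((d - 1) * (2 * d - 2).choose (d - 1) : ℕ) := by
  have hmem : ∀ i, t i ∈ span F (Set.range t) := fun i => subset_span ⟨i, rfl⟩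
  have htr : Transcendental ℚ (t 0) := QNX.transc hV (hmem 0) (hi.ne_zero 0)
  obtain ⟨n, U, -, hn, hU, hE⟩ := QN.main F hF one_pos hd (Nat.succ_pos d)
    (fun _ : Fin 1 => t 0) (fun P hP _ h => QNX.one_var htr P hP h) t hV
  have hn' := hn ⟨0, hmem 0⟩ (by omega)
  have e1 : d + 1 + d - 3 = 2 * d - 2 := by omega
  rw [e1] at hn'
  have hfd : FiniteDimensional F (span F (Set.range t)) :=
    FiniteDimensional.span_of_finite F (Set.finite_range t)
  have hfin : ∀ i, FiniteDimensional F (U i) := fun i =>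
    Submodule.finiteDimensional_of_le (hU i).1
  have hdim : ∀ i, finrank F (U i) ≤ d := fun i => by
    have h := (hU i).2
    have e2 : (1 + d).choose d = d + 1 := by rw [Nat.add_comm, Nat.choose_succ_self_right]
    omega
  have hinf : Infinite F := inferInstance
  have hadd : ∀ y ∈ {y ∈ span F (Set.range t) | BadC d (fun _ : Fin 1 => t 0) y}, ∀ c : F,
      y + c • t 0 ∈ {y ∈ span F (Set.range t) | BadC d (fun _ : Fin 1 => t 0) y} := by
    rintro y ⟨hy, hb⟩ c
    exact ⟨add_mem hy (smul_mem _ c (hmem 0)), QNX.badC_shift (k := 1) (fun _ => t 0) y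
      (c : ℂ) (hF c c.2) 0 hb⟩
  have h1 := QNX.union_count hd t hi U hfin hdim _ hE hadd
  refine le_trans (Set.encard_le_encard ?_) (h1.trans ?_)
  · intro j hj
    exact ⟨Submodule.sum_mem _ fun i _ => smul_mem _ _ (hmem _), hj⟩
  · exact_mod_cast Nat.mul_le_mul_left (d - 1) hn'

/-- **Explicit triples without a homogeneous relation of degree `d`.** -/
theorem explicitHom (F : Subfield ℂ) (hF : ∀ c ∈ F, IsAlgebraic ℚ c) {W : Submodule F ℂ}
    (hW : Free0 (algebraicClosure ℚ ℂ) W) {d : ℕ} (hd : 0 < d) (v : Fin (d + 2) → ℂ)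
    (hvW : ∀ i, v i ∈ W) (hi : LinearIndependent F v) :
    {j : F | ∃ P : MvPolynomial (Fin 3) ℂ, P ≠ 0 ∧ P.IsHomogeneous d ∧
      (∀ m, IsAlgebraic ℚ (P.coeff m)) ∧
        eval ![v 0, v 1, ∑ i : Fin d, (j : ℂ) ^ (i : ℕ) * v i.succ.succ] P = 0}.encard ≤
      ((d - 1) * (2 * d - 2).choose (d - 1) : ℕ) := by
  have h0 : v 0 ≠ 0 := hi.ne_zero 0
  let t : Fin (d + 1) → ℂ := fun i => v i.succ / v 0
  have hvt : ∀ i, v 0 * t i = v i.succ := fun i => mul_div_cancel₀ _ h0
  have hsucc : LinearIndependent F (fun i : Fin (d + 1) => v i.succ) :=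
    hi.comp _ (Fin.succ_injective _)
  have hit : LinearIndependent F t := by
    refine LinearIndependent.of_comp (LinearMap.mulLeft F (v 0)) ?_
    have : (LinearMap.mulLeft F (v 0)) ∘ t = fun i : Fin (d + 1) => v i.succ := funext hvt
    rw [this]
    exact hsucc
  let C : Submodule F ℂ := span F (Set.range fun i : Fin (d + 1) => v i.succ)
  have hCW : C ≤ W := span_le.2 (by
    rintro _ ⟨i, rfl⟩
    exact hvW _)
  have h0C : v 0 ∉ C := by
    have h1 := (linearIndependent_finSucc.1 hi).2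
    exact h1
  have hfree : QR.Free (algebraicClosure ℚ ℂ) (span F (Set.range t)) := by
    have h1 := free_dv hW hCW (hvW 0) h0C
    have h2 : span F (Set.range t) ≤ dv (v 0) C := span_le.2 (by
      rintro _ ⟨i, rfl⟩
      show v 0 * t i ∈ C
      rw [hvt]
      exact subset_span ⟨i, rfl⟩)
    exact fun ι _ u hu => h1 ι u fun i => h2 (hu i)
  refine (Set.encard_le_encard ?_).trans (explicitFree F hF hd t hit hfree)
  rintro j ⟨P, h1, h2, h3, h4⟩
  have h5 := badC_of_homogeneous h0 h1 h2 h3 h4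
  have e1 : (∑ i : Fin d, (j : ℂ) ^ (i : ℕ) * v i.succ.succ) / v 0 =
      ∑ i : Fin d, (j : ℂ) ^ (i : ℕ) * t i.succ := by
    rw [Finset.sum_div]
    exact Finset.sum_congr rfl fun i _ => mul_div_assoc _ _ _
  rw [e1] at h5
  exact h5

/-- **The relations with a quotient by an element of `W`.** -/
theorem general (F : Subfield ℂ) (hF : ∀ c ∈ F, IsAlgebraic ℚ c) {k d r : ℕ} (hk : 0 < k)
    (hd : 0 < d) (hr : 0 < r) {W : Submodule F ℂ} [FiniteDimensional F W]
    (hW : Free0 (algebraicClosure ℚ ℂ) W) (hWr : finrank F W ≤ r + 1) (x : Fin k → ℂ)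
    (hx : ∀ P : MvPolynomial (Fin k) ℂ, (∀ m, IsAlgebraic ℚ (P.coeff m)) →
      P.totalDegree ≤ d ^ (r + 1) → eval x P = 0 → P = 0) {v₀ : ℂ} (h0W : v₀ ∈ W)
    (h0 : v₀ ≠ 0) :
    ∃ (n : ℕ) (U : Fin n → Submodule F ℂ), n ≤ (r + d - 2).choose (d - 1) ∧
      ((∃ j, x j * v₀ ∈ W) → 2 ≤ r → n ≤ (r + d - 3).choose (d - 1)) ∧
      (∀ i, U i ≤ W ∧ finrank F (U i) ≤ (k + d).choose d) ∧
      {y | y ∈ W ∧ BadC d x (y / v₀)} = ⋃ i, (U i : Set ℂ) := by
  classical
  -- a complement
  obtain ⟨C, hCW, h0C, hdec, hCr⟩ : ∃ C : Submodule F ℂ, C ≤ W ∧ v₀ ∉ C ∧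
      (∀ y ∈ W, ∃ c : F, ∃ z ∈ C, y = c • v₀ + z) ∧ finrank F C ≤ r := by
    let w : W := ⟨v₀, h0W⟩
    have hw : w ≠ 0 := fun h => h0 (congrArg Subtype.val h)
    obtain ⟨q, hq⟩ := Submodule.exists_isCompl (span F {w})
    refine ⟨q.map W.subtype, ?_, ?_, ?_, ?_⟩
    · rintro _ ⟨z, -, rfl⟩
      exact z.2
    · rintro ⟨z, hz, hzw⟩
      have e : z = w := Subtype.ext hzw
      have h1 : w ∈ span F {w} ⊓ q := ⟨mem_span_singleton_self w, e ▸ hz⟩
      rw [hq.inf_eq_bot] at h1
      exact hw ((mem_bot F).1 h1)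
    · intro y hy
      have h1 : (⟨y, hy⟩ : W) ∈ span F {w} ⊔ q := by rw [hq.sup_eq_top]; trivial
      obtain ⟨a, ha, b, hb, hab⟩ := mem_sup.1 h1
      obtain ⟨c, rfl⟩ := mem_span_singleton.1 ha
      exact ⟨c, b, ⟨b, hb, rfl⟩, (congrArg Subtype.val hab).symm⟩
    · have h1 := Submodule.finrank_add_eq_of_isCompl hq
      have h2 : finrank F (span F {w}) = 1 := finrank_span_singleton hw
      have h3 : finrank F (q.map W.subtype) = finrank F q :=
        Submodule.finrank_map_subtype_eq W q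
      omega
  have hCfin : FiniteDimensional F C := Submodule.finiteDimensional_of_le hCW
  -- generators of `C / v₀`
  let b := Module.finBasis F C
  let t : Fin r → ℂ := fun i =>
    if h : (i : ℕ) < finrank F C then (b ⟨i, h⟩ : ℂ) / v₀ else 0
  have hspan : span F (Set.range t) = dv v₀ C := by
    apply le_antisymm
    · refine span_le.2 ?_
      rintro _ ⟨i, rfl⟩
      show v₀ * t i ∈ C
      simp only [t]
      split_ifs with h
      · rw [mul_div_cancel₀ _ h0]
        exact (b ⟨i, h⟩).2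
      · rw [mul_zero]
        exact zero_mem _
    · intro y hy
      have h1 := b.sum_repr ⟨v₀ * y, hy⟩
      have h2 : y = ∑ i, b.repr ⟨v₀ * y, hy⟩ i • ((b i : ℂ) / v₀) := by
        have h3 := congrArg (fun z : C => (z : ℂ) / v₀) h1
        simp only [Submodule.coe_sum, Submodule.coe_smul, Finset.sum_div] at h3
        rw [mul_div_cancel_left₀ _ h0] at h3
        refine h3.symm.trans (Finset.sum_congr rfl fun i _ => ?_)
        rw [smul_div_assoc]
      rw [h2]
      refine Submodule.sum_mem _ fun i _ => smul_mem _ _ (subset_span ⟨⟨i, ?_⟩, ?_⟩)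
      · exact lt_of_lt_of_le i.2 hCr
      · simp only [t]
        rw [dif_pos i.2]
  have hfree : QR.Free (algebraicClosure ℚ ℂ) (span F (Set.range t)) := by
    rw [hspan]
    exact free_dv hW hCW h0W h0C
  -- the translation of `x`
  obtain ⟨c, hc, hcx⟩ : ∃ c : Fin k → ℂ, (∀ i, IsAlgebraic ℚ (c i)) ∧
      ((∃ j, x j * v₀ ∈ W) → ∃ j, x j + c j ∈ span F (Set.range t)) := by
    by_cases h : ∃ j, x j * v₀ ∈ W
    · obtain ⟨j, hj⟩ := h
      obtain ⟨a, z, hz, hazj⟩ := hdec _ hj
      refine ⟨fun i => if i = j then - (a : ℂ) else 0, fun i => ?_, fun _ => ⟨j, ?_⟩⟩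
      · show IsAlgebraic ℚ (if i = j then - (a : ℂ) else 0)
        split_ifs
        · exact (hF a a.2).neg
        · exact isAlgebraic_zero
      · rw [hspan, mem_dv]
        simp only [if_pos]
        have e : v₀ * (x j + - (a : ℂ)) = z := by
          have h1 : a • v₀ = (a : ℂ) * v₀ := rfl
          rw [h1] at hazj
          linear_combination hazj
        rw [e]
        exact hz
    · exact ⟨fun _ => 0, fun _ => isAlgebraic_zero, fun h' => absurd h' h⟩
  obtain ⟨n, U', hn1, hn2, hU', hE'⟩ := QN.main F hF hk hd hr (fun i => x i + c i)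
    (noRel_add hc hx) t hfree
  have hbad : ∀ (a : F) (u : ℂ), BadC d x ((a : ℂ) + u) ↔ BadC d (fun i => x i + c i) u := by
    intro a u
    have h1 := badC_add_iff (d := d) (x := x) (c := c) (y := (a : ℂ) + u) (b := - (a : ℂ)) hc
      (hF a a.2).neg
    have e : (a : ℂ) + u + - (a : ℂ) = u := by ring
    rw [e] at h1
    exact h1.symm
  have hmem' : ∀ u : ℂ, (∃ i, u ∈ U' i) ↔ u ∈ dv v₀ C ∧ BadC d (fun i => x i + c i) u := by
    intro u
    have h1 : u ∈ {y ∈ span F (Set.range t) | BadC d (fun i => x i + c i) y} ↔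
        u ∈ ⋃ i, (U' i : Set ℂ) := by rw [hE']
    rw [Set.mem_iUnion, hspan] at h1
    exact h1.symm
  let U : Fin n → Submodule F ℂ := fun i =>
    (span F {(1 : ℂ)} ⊔ U' i).map (LinearMap.mulLeft F v₀)
  have hmem : ∀ i y, y ∈ U i ↔ ∃ (a : F) (u : ℂ), u ∈ U' i ∧ y = v₀ * ((a : ℂ) + u) := by
    intro i y
    constructor
    · rintro ⟨z, hz, rfl⟩
      obtain ⟨e, he, u, hu, rfl⟩ := mem_sup.1 hz
      obtain ⟨a, rfl⟩ := mem_span_singleton.1 he
      refine ⟨a, u, hu, ?_⟩
      have h1 : a • (1 : ℂ) = (a : ℂ) := by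
        have : a • (1 : ℂ) = (a : ℂ) * 1 := rfl
        rw [this, mul_one]
      rw [LinearMap.mulLeft_apply, h1]
    · rintro ⟨a, u, hu, rfl⟩
      refine ⟨(a : ℂ) + u, add_mem_sup ?_ hu, rfl⟩
      have h1 : a • (1 : ℂ) = (a : ℂ) := by
        have : a • (1 : ℂ) = (a : ℂ) * 1 := rfl
        rw [this, mul_one]
      rw [← h1]
      exact smul_mem _ _ (mem_span_singleton_self _)
  have hfinU' : ∀ i, FiniteDimensional F (U' i) := fun i => by
    have : FiniteDimensional F (span F (Set.range t)) :=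
      FiniteDimensional.span_of_finite F (Set.finite_range t)
    exact Submodule.finiteDimensional_of_le (hU' i).1
  refine ⟨n, U, hn1, fun h1 h2 => hn2 (hcx h1) h2, fun i => ⟨?_, ?_⟩, ?_⟩
  · intro y hy
    obtain ⟨a, u, hu, rfl⟩ := (hmem i y).1 hy
    have h1 : v₀ * u ∈ C := by
      have := (hU' i).1 hu
      rw [hspan] at this
      exact this
    rw [mul_add]
    refine add_mem ?_ (hCW h1)
    have : v₀ * (a : ℂ) = a • v₀ := mul_comm _ _
    rw [this]
    exact smul_mem _ _ h0W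
  · have h1 : finrank F (U i) ≤ finrank F (span F {(1 : ℂ)} ⊔ U' i : Submodule F ℂ) :=
      Submodule.finrank_map_le _ _
    have h2 := Submodule.finrank_add_le_finrank_add_finrank (span F {(1 : ℂ)}) (U' i)
    have h3 : finrank F (span F {(1 : ℂ)}) ≤ 1 := by
      rw [finrank_span_singleton one_ne_zero]
    have h4 := (hU' i).2
    omega
  · ext y
    rw [Set.mem_iUnion]
    constructor
    · rintro ⟨hy, hb⟩
      obtain ⟨a, z, hz, rfl⟩ := hdec y hy
      have e : (a • v₀ + z) / v₀ = (a : ℂ) + z / v₀ := by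
        have : a • v₀ = (a : ℂ) * v₀ := rfl
        rw [this, add_div, mul_div_cancel_right₀ _ h0]
      rw [e, hbad] at hb
      obtain ⟨i, hi⟩ := (hmem' (z / v₀)).2 ⟨by rw [mem_dv, mul_div_cancel₀ _ h0]; exact hz, hb⟩
      refine ⟨i, (hmem i _).2 ⟨a, z / v₀, hi, ?_⟩⟩
      have : a • v₀ = (a : ℂ) * v₀ := rfl
      rw [this, mul_add, mul_div_cancel₀ _ h0]
      ring
    · rintro ⟨i, hi⟩
      obtain ⟨a, u, hu, rfl⟩ := (hmem i y).1 hi
      obtain ⟨h1, h2⟩ := (hmem' u).1 ⟨i, hu⟩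
      refine ⟨?_, ?_⟩
      · rw [mul_add]
        refine add_mem ?_ (hCW h1)
        have : v₀ * (a : ℂ) = a • v₀ := mul_comm _ _
        rw [this]
        exact smul_mem _ _ h0W
      · rw [mul_div_cancel_left₀ _ h0, hbad]
        exact h2

end Pool.Agent.QNH
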