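import Pool.Agent.QNH.FreeH
import Pool.Agent.QR.Final

/-!
# Homogeneous quadratic relations

`E` is the set of the three-dimensional spaces `T ≤ W` with three independent elements which
satisfy a homogeneous quadratic relation over `K`. If independent elements of `W` are independent
over `K`, a nonzero element is in at most three `T ∈ E` inside a four-dimensional space, and a
two-dimensional space is contained in at most `dim W - 2` elements of `E`.
-/

namespace Pool.Agent.QNH

open Module Submodule Pool.Agent.QR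
open scoped Pointwise

section rel

variable {K L : Type*} [Field K] [Field L] [Algebra K L]

/-- the six products of three elements -/
def prods (x y z : L) : Fin 6 → L := ![x * x, x * y, x * z, y * y, y * z, z * z]

/-- `x, y, z` satisfy a nonzero homogeneous quadratic relation. -/
def HRel (K : Type*) {L : Type*} [Field K] [Field L] [Algebra K L] (x y z : L) : Prop :=
  ¬ LinearIndependent K (prods x y z)

theorem range_prods (x y z : L) :
    Set.range (prods x y z) = ({x, y, z} : Set L) * ({x, y, z} : Set L) := by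
  apply Set.Subset.antisymm
  · rintro _ ⟨i, rfl⟩
    fin_cases i <;> exact Set.mul_mem_mul (by simp) (by simp)
  · rintro _ ⟨a, ha, b, hb, rfl⟩
    rcases ha with rfl | rfl | rfl <;> rcases hb with rfl | rfl | rfl
    · exact ⟨0, rfl⟩
    · exact ⟨1, rfl⟩
    · exact ⟨2, rfl⟩
    · exact ⟨1, mul_comm _ _⟩
    · exact ⟨3, rfl⟩
    · exact ⟨4, rfl⟩
    · exact ⟨2, mul_comm _ _⟩
    · exact ⟨4, mul_comm _ _⟩
    · exact ⟨5, rfl⟩

theorem hrel_iff {x y z : L} : HRel K x y z ↔
    6 ≠ finrank K ↥(span K {x, y, z} * span K {x, y, z}) := by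
  rw [HRel, linearIndependent_iff_card_eq_finrank_span, Set.finrank, range_prods,
    ← Submodule.span_mul_span, Fintype.card_fin]

theorem hrel_of_span {x y z x' y' z' : L} (h : span K {x, y, z} = span K {x', y', z'})
    (hr : HRel K x y z) : HRel K x' y' z' := by
  rw [hrel_iff] at hr ⊢
  rwa [h] at hr

theorem rel2_of_hrel {x y z : L} (hx : x ≠ 0) (h : HRel K x y z) :
    Rel2 K (x⁻¹ * y) (x⁻¹ * z) := by
  obtain ⟨g, hg, i, hi⟩ := Fintype.not_linearIndependent_iff.1 h
  refine ⟨g 5, g 4, g 3, g 2, g 1, g 0, ?_, ?_⟩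
  · rintro ⟨h5, h4, h3, h2, h1, h0⟩
    apply hi
    fin_cases i <;> assumption
  · rw [Fin.sum_univ_six] at hg
    simp only [prods, Algebra.smul_def, Matrix.cons_val_zero, Matrix.cons_val_one,
      Matrix.cons_val] at hg
    have hx2 : x⁻¹ * x = 1 := inv_mul_cancel₀ hx
    have e : algebraMap K L (g 5) * (x⁻¹ * z) ^ 2 +
        algebraMap K L (g 4) * (x⁻¹ * y * (x⁻¹ * z)) + algebraMap K L (g 3) * (x⁻¹ * y) ^ 2 +
        algebraMap K L (g 2) * (x⁻¹ * z) + algebraMap K L (g 1) * (x⁻¹ * y) +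
        algebraMap K L (g 0) = x⁻¹ ^ 2 * (algebraMap K L (g 0) * (x * x) +
          algebraMap K L (g 1) * (x * y) + algebraMap K L (g 2) * (x * z) +
          algebraMap K L (g 3) * (y * y) + algebraMap K L (g 4) * (y * z) +
          algebraMap K L (g 5) * (z * z)) := by
      linear_combination (-(algebraMap K L (g 0)) * (x⁻¹ * x + 1) -
        algebraMap K L (g 1) * (x⁻¹ * y) - algebraMap K L (g 2) * (x⁻¹ * z)) * hx2
    rw [e, hg, mul_zero]

end rel

variable {k K L : Type*} [Field k] [Field K] [Field L] [Algebra k L] [Algebra K L]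

theorem span_span (hs : Sub k K L) (s : Set L) : span K (span k s : Set L) = span K s := by
  refine le_antisymm (span_le.2 fun z hz => ?_) (span_mono subset_span)
  induction hz using span_induction with
  | mem x h => exact subset_span h
  | zero => exact zero_mem _
  | add x y _ _ hx hy => exact add_mem hx hy
  | smul c x _ hx =>
    obtain ⟨d, hd⟩ := hs c
    have : c • x = d • x := by rw [Algebra.smul_def, Algebra.smul_def, hd]
    rw [this]
    exact smul_mem _ _ hx

theorem triple_eq {T : Submodule k L} (hT : finrank k T = 3) {x y z : L} (hx : x ∈ T)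
    (hy : y ∈ T) (hz : z ∈ T) (h : LinearIndependent k ![x, y, z]) : span k {x, y, z} = T := by
  have hfin : Module.Finite k T := Module.finite_of_finrank_pos (by omega)
  refine Submodule.eq_of_le_of_finrank_eq ?_ ?_
  · rw [span_le]
    rintro z (rfl | rfl | rfl)
    · exact hx
    · exact hy
    · exact hz
  · rw [hT]
    have := finrank_span_eq_card h
    rw [Matrix.range_cons, Matrix.range_cons_cons_empty, Set.singleton_union] at this
    simpa using this

/-- Exceptional spaces. -/
def HExc (K : Type*) {k L : Type*} [Field k] [Field K] [Field L] [Algebra k L] [Algebra K L]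
    (T : Submodule k L) : Prop :=
  ∃ x ∈ T, ∃ y ∈ T, ∃ z ∈ T, LinearIndependent k ![x, y, z] ∧ HRel K x y z

theorem hexc_rel (hs : Sub k K L) {T : Submodule k L} (hT : finrank k T = 3) (he : HExc K T)
    {u v w : L} (hu : u ∈ T) (hv : v ∈ T) (hw : w ∈ T) (h : LinearIndependent k ![u, v, w]) :
    HRel K u v w := by
  obtain ⟨x, hx, y, hy, z, hz, hi, hr⟩ := he
  refine hrel_of_span ?_ hr
  rw [← span_span hs {x, y, z}, ← span_span hs {u, v, w}, triple_eq hT hx hy hz hi,
    triple_eq hT hu hv hw h]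

/-- The exceptional spaces in `W`. -/
def ES (K : Type*) {k L : Type*} [Field k] [Field K] [Field L] [Algebra k L] [Algebra K L]
    (W : Submodule k L) : Set (Submodule k L) :=
  {T | T ≤ W ∧ finrank k T = 3 ∧ HExc K T}

theorem finrank_dv {v₀ : L} (h : v₀ ≠ 0) (D : Submodule k L) :
    finrank k (dv v₀ D) = finrank k D := by
  refine LinearEquiv.finrank_eq (LinearEquiv.ofBijective
    ((LinearMap.mulLeft k v₀).restrict (p := dv v₀ D) (q := D) fun y hy => hy) ⟨?_, ?_⟩)
  · intro a b hab
    have := congrArg Subtype.val hab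
    exact Subtype.ext (mul_left_cancel₀ h this)
  · rintro ⟨z, hz⟩
    refine ⟨⟨v₀⁻¹ * z, ?_⟩, ?_⟩
    · rw [mem_dv, mul_inv_cancel_left₀ h]
      exact hz
    · exact Subtype.ext (mul_inv_cancel_left₀ h z)

theorem dv_inj {v₀ : L} (h : v₀ ≠ 0) {C D : Submodule k L} (hCD : dv v₀ C = dv v₀ D) : C = D := by
  ext z
  have h1 : v₀⁻¹ * z ∈ dv v₀ C ↔ v₀⁻¹ * z ∈ dv v₀ D := by rw [hCD]
  rwa [mem_dv, mem_dv, mul_inv_cancel_left₀ h] at h1

theorem dv_mono {v₀ : L} {C D : Submodule k L} (h : C ≤ D) : dv v₀ C ≤ dv v₀ D :=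
  fun _ hy => h hy

section

variable {x : L} {C : Submodule k L} (hC : IsCompl (span k {x}) C)

include hC

theorem sup_eq {T : Submodule k L} (hxT : x ∈ T) : span k {x} ⊔ C ⊓ T = T := by
  rw [← sup_inf_assoc_of_le _ ((span_singleton_le_iff_mem x T).2 hxT), hC.sup_eq_top, top_inf_eq]

theorem finrank_inf {T : Submodule k L} (hx0 : x ≠ 0) (hxT : x ∈ T) [Module.Finite k T] :
    finrank k ↥(C ⊓ T) + 1 = finrank k T := by
  have hf : Module.Finite k ↥(C ⊓ T) := Submodule.finiteDimensional_of_le inf_le_right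
  have h1 := Submodule.finrank_sup_add_finrank_inf_eq (span k {x}) (C ⊓ T)
  have h2 : span k {x} ⊓ (C ⊓ T) = ⊥ := by
    rw [← inf_assoc, hC.inf_eq_bot, bot_inf_eq]
  rw [sup_eq hC hxT, h2, finrank_bot, finrank_span_singleton hx0] at h1
  omega

theorem notMem (hx0 : x ≠ 0) : x ∉ C := fun h => by
  have : x ∈ span k {x} ⊓ C := ⟨mem_span_singleton_self x, h⟩
  rw [hC.inf_eq_bot, mem_bot] at this
  exact hx0 this

theorem pl_inj {T T' : Submodule k L} (hx0 : x ≠ 0) (hT : x ∈ T) (hT' : x ∈ T')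
    (h : dv x (C ⊓ T) = dv x (C ⊓ T')) : T = T' := by
  rw [← sup_eq hC hT, ← sup_eq hC hT', dv_inj hx0 h]

theorem pl_two {T : Submodule k L} (hx0 : x ≠ 0) (hxT : x ∈ T) (hT : finrank k T = 3) :
    finrank k (dv x (C ⊓ T)) = 2 := by
  have hf : Module.Finite k T := Module.finite_of_finrank_pos (by omega)
  rw [finrank_dv hx0]
  have := finrank_inf hC hx0 hxT
  omega

theorem pl_exc (hs : Sub k K L) {T : Submodule k L} (hx0 : x ≠ 0) (hxT : x ∈ T)
    (hT : finrank k T = 3) (he : HExc K T) : Exc K (dv x (C ⊓ T)) := by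
  have h2 : finrank k (dv x (C ⊓ T)) = 2 := pl_two hC hx0 hxT hT
  have hne : dv x (C ⊓ T) ≠ ⊥ := by
    intro h
    rw [h, finrank_bot] at h2
    omega
  obtain ⟨u, hu, hu0⟩ := Submodule.exists_mem_ne_zero_of_ne_bot hne
  obtain ⟨v, hv, huv⟩ := extend h2 hu hu0
  refine ⟨u, hu, v, hv, huv, ?_⟩
  have hi : LinearIndependent k ![x, x * u, x * v] := by
    rw [i3_iff]
    intro a b c h
    have h3 : b • (x * u) + c • (x * v) ∈ C := add_mem (smul_mem _ _ hu.1) (smul_mem _ _ hv.1)
    have h4 : a • x ∈ C := by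
      have : a • x = -(b • (x * u) + c • (x * v)) := by
        rw [eq_neg_iff_add_eq_zero, ← h]
        abel
      rw [this]
      exact neg_mem h3
    have ha : a = 0 := by
      by_contra ha
      apply notMem hC hx0
      have := smul_mem C a⁻¹ h4
      rwa [inv_smul_smul₀ ha] at this
    rw [ha, zero_smul, zero_add] at h
    have h5 : b • u + c • v = 0 := by
      have e : x * (b • u + c • v) = b • (x * u) + c • (x * v) := by
        rw [mul_add, mul_smul_comm, mul_smul_comm]
      rw [← e] at h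
      exact (mul_eq_zero.1 h).resolve_left hx0
    exact ⟨ha, LinearIndependent.pair_iff.1 huv b c h5⟩
  have h6 : Rel2 K (x⁻¹ * (x * u)) (x⁻¹ * (x * v)) :=
    rel2_of_hrel hx0 (hexc_rel hs hT he hxT hu.2 hv.2 hi)
  rwa [inv_mul_cancel_left₀ hx0, inv_mul_cancel_left₀ hx0] at h6

end

variable [IsAlgClosed K] [CharZero K]

/-- **A nonzero element is in at most three exceptional spaces inside a four-dimensional
space.** -/
theorem three (hs : Sub k K L) {W : Submodule k L} (hW : Free0 K W) {x : L} (hx0 : x ≠ 0)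
    {S : Submodule k L} (hS : finrank k S = 4) (hSW : S ≤ W) :
    {T ∈ ES K W | x ∈ T ∧ T ≤ S}.encard ≤ 3 := by
  refine encard_le_of 3 fun f hf hm => ?_
  obtain ⟨C, hC⟩ := Submodule.exists_isCompl (span k {x})
  have hfin : Module.Finite k S := Module.finite_of_finrank_pos (by omega)
  have hxS : x ∈ S := (hm 0).2.2 (hm 0).2.1
  have hV : finrank k (dv x (C ⊓ S)) = 3 := by
    rw [finrank_dv hx0]
    have := finrank_inf hC hx0 hxS
    omega
  have hF : Free K (dv x (C ⊓ S)) := free_dv (hW.mono hSW) inf_le_right hxS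
    fun h => notMem hC hx0 h.1
  have hle : ∀ i, dv x (C ⊓ f i) ≤ dv x (C ⊓ S) := fun i =>
    dv_mono (inf_le_inf_left C (hm i).2.2)
  have hd : ∀ i, finrank k (dv x (C ⊓ f i)) = 2 := fun i =>
    pl_two hC hx0 (hm i).2.1 (hm i).1.2.1
  have he : ∀ i, Exc K (dv x (C ⊓ f i)) := fun i =>
    pl_exc hC hs hx0 (hm i).2.1 (hm i).1.2.1 (hm i).1.2.2
  have hn : ∀ i j, i ≠ j → dv x (C ⊓ f i) ≠ dv x (C ⊓ f j) := fun i j hij h =>
    hij (hf (pl_inj hC hx0 (hm i).2.1 (hm j).2.1 h))
  exact no_four hs hV hF.ind4 (hle 0) (hle 1) (hle 2) (hle 3) (hd 0) (hd 1) (hd 2) (hd 3)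
    (he 0) (he 1) (he 2) (he 3) (hn 0 1 (by decide)) (hn 0 2 (by decide)) (hn 0 3 (by decide))
    (hn 1 2 (by decide)) (hn 1 3 (by decide)) (hn 2 3 (by decide))

/-- **A two-dimensional space is contained in at most `dim W - 2` exceptional spaces.** -/
theorem through_two (hs : Sub k K L) [IsAlgClosed L] {W : Submodule k L} (hW : Free0 K W)
    [Module.Finite k W] {S : Submodule k L} (hS : finrank k S = 2) :
    {T ∈ ES K W | S ≤ T}.encard ≤ (finrank k W - 2 : ℕ) := by
  refine encard_le_of _ fun f hf hm => ?_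
  have hne : S ≠ ⊥ := by
    intro h
    rw [h, finrank_bot] at hS
    omega
  obtain ⟨x, hxS, hx0⟩ := Submodule.exists_mem_ne_zero_of_ne_bot hne
  obtain ⟨C, hC⟩ := Submodule.exists_isCompl (span k {x})
  have hx : ∀ i, x ∈ f i := fun i => (hm i).2 hxS
  have hxW : x ∈ W := (hm 0).1.1 (hx 0)
  have hfS : Module.Finite k S := Module.finite_of_finrank_pos (by omega)
  have h1 : finrank k (dv x (C ⊓ S)) = 1 := by
    rw [finrank_dv hx0]
    have := finrank_inf hC hx0 hxS
    omega
  have hne' : dv x (C ⊓ S) ≠ ⊥ := by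
    intro h
    rw [h, finrank_bot] at h1
    omega
  obtain ⟨y, hyS, hy0⟩ := Submodule.exists_mem_ne_zero_of_ne_bot hne'
  have hWr := finrank_inf hC hx0 hxW
  have hW3 : 3 ≤ finrank k W := by
    have := Submodule.finrank_mono (hm 0).1.1
    rwa [(hm 0).1.2.1] at this
  have hV : finrank k (dv x (C ⊓ W)) = finrank k W - 2 + 1 := by
    rw [finrank_dv hx0]
    omega
  have hF : Free K (dv x (C ⊓ W)) := free_dv hW inf_le_right hxW fun h => notMem hC hx0 h.1
  refine rank_r hs (Nat.succ_pos _) hV hF (fun i => dv x (C ⊓ f i)) ?_ (fun i => ?_)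
    (fun i => pl_two hC hx0 (hx i) (hm i).1.2.1)
    (fun i => pl_exc hC hs hx0 (hx i) (hm i).1.2.1 (hm i).1.2.2) hy0 (fun i => ?_)
  · intro i j hij
    exact hf (pl_inj hC hx0 (hx i) (hx j) hij)
  · exact dv_mono (inf_le_inf_left C (hm i).1.1)
  · exact dv_mono (inf_le_inf_left C (hm i).2) hyS

/-- **Pairs.** -/
theorem pairsH (hs : Sub k K L) {W : Submodule k L} (hW : Free0 K W) (v : Fin 4 → L)
    (hv : ∀ i, v i ∈ W) (hi : LinearIndependent k v) :
    {p : k × k | HRel K (v 0) (v 1 + p.1 • v 3) (v 2 + p.2 • v 3)}.encard ≤ 3 := by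
  have hz : ∀ a b c d : k, a • v 0 + b • v 1 + c • v 2 + d • v 3 = 0 →
      a = 0 ∧ b = 0 ∧ c = 0 ∧ d = 0 := by
    intro a b c d h
    have h1 := Fintype.linearIndependent_iff.1 hi ![a, b, c, d] (by
      rw [Fin.sum_univ_four]
      exact h)
    exact ⟨h1 0, h1 1, h1 2, h1 3⟩
  have hm : ∀ i, v i ∈ span k (Set.range v) := fun i => subset_span ⟨i, rfl⟩
  have hfr : finrank k (span k (Set.range v)) = 4 := by
    rw [finrank_span_eq_card hi, Fintype.card_fin]
  have hle : span k (Set.range v) ≤ W := by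
    rw [span_le]
    rintro _ ⟨i, rfl⟩
    exact hv i
  have h0 : v 0 ≠ 0 := hi.ne_zero 0
  refine le_trans ?_ (three hs hW h0 hfr hle)
  refine Set.encard_le_encard_of_injOn
    (f := fun p : k × k => span k {v 0, v 1 + p.1 • v 3, v 2 + p.2 • v 3}) ?_ ?_
  · rintro ⟨a, b⟩ hp
    have m1 : v 1 + a • v 3 ∈ span k (Set.range v) := add_mem (hm 1) (smul_mem _ _ (hm 3))
    have m2 : v 2 + b • v 3 ∈ span k (Set.range v) := add_mem (hm 2) (smul_mem _ _ (hm 3))
    have hS : span k {v 0, v 1 + a • v 3, v 2 + b • v 3} ≤ span k (Set.range v) := by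
      rw [span_le]
      rintro z (rfl | rfl | rfl)
      · exact hm 0
      · exact m1
      · exact m2
    have hli : LinearIndependent k ![v 0, v 1 + a • v 3, v 2 + b • v 3] := by
      rw [i3_iff]
      intro c d e h
      have := hz c d e (d * a + e * b) (by
        rw [← h]
        module)
      exact ⟨this.1, this.2.1, this.2.2.1⟩
    refine ⟨⟨hS.trans hle, ?_, v 0, subset_span (by simp), _, subset_span (by simp), _,
      subset_span (by simp), hli, hp⟩, subset_span (by simp), hS⟩
    have := finrank_span_eq_card hli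
    rw [Matrix.range_cons, Matrix.range_cons_cons_empty, Set.singleton_union,
      Fintype.card_fin] at this
    exact this
  · rintro ⟨a, b⟩ - ⟨c, d⟩ - h
    replace h : span k {v 0, v 1 + a • v 3, v 2 + b • v 3} =
      span k {v 0, v 1 + c • v 3, v 2 + d • v 3} := h
    have h1 : v 1 + a • v 3 ∈ span k {v 0, v 1 + c • v 3, v 2 + d • v 3} := by
      have : v 1 + a • v 3 ∈ span k {v 0, v 1 + a • v 3, v 2 + b • v 3} := subset_span (by simp)
      rwa [h] at this
    have h2 : v 2 + b • v 3 ∈ span k {v 0, v 1 + c • v 3, v 2 + d • v 3} := by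
      have : v 2 + b • v 3 ∈ span k {v 0, v 1 + a • v 3, v 2 + b • v 3} := subset_span (by simp)
      rwa [h] at this
    obtain ⟨p, q, s, h3⟩ := mem_span_triple.1 h1
    obtain ⟨p', q', s', h4⟩ := mem_span_triple.1 h2
    obtain ⟨-, h5, h6, h7⟩ := hz p (q - 1) s (q * c + s * d - a) (by
      have e : p • v 0 + (q - 1) • v 1 + s • v 2 + (q * c + s * d - a) • v 3 =
        (p • v 0 + q • (v 1 + c • v 3) + s • (v 2 + d • v 3)) - (v 1 + a • v 3) := by module
      rw [e, h3, sub_self])
    obtain ⟨-, h8, h9, h10⟩ := hz p' q' (s' - 1) (q' * c + s' * d - b) (by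
      have e : p' • v 0 + q' • v 1 + (s' - 1) • v 2 + (q' * c + s' * d - b) • v 3 =
        (p' • v 0 + q' • (v 1 + c • v 3) + s' • (v 2 + d • v 3)) - (v 2 + b • v 3) := by module
      rw [e, h4, sub_self])
    have hq : q = 1 := sub_eq_zero.1 h5
    have hs' : s' = 1 := sub_eq_zero.1 h9
    rw [hq, h6, one_mul, zero_mul, add_zero, sub_eq_zero] at h7
    rw [h8, hs', one_mul, zero_mul, zero_add, sub_eq_zero] at h10
    rw [h7, h10]

end Pool.Agent.QNH
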