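import Pool.Agent.QNH.QuadH
import Pool.Agent.QR.MainE

/-!
# Homogeneous quadratic relations between logarithms, and between elliptic logarithms
-/

namespace Pool.Agent.QNH

open Module Submodule Pool.Agent.QR

/-- the exponents of the six monomials -/
noncomputable def ex6 : Fin 6 → (Fin 3 →₀ ℕ) := fun i =>
  Finsupp.single ((![0, 0, 0, 1, 1, 2] : Fin 6 → Fin 3) i) 1 +
    Finsupp.single ((![0, 1, 2, 1, 2, 2] : Fin 6 → Fin 3) i) 1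

theorem ex6_surj (m : Fin 3 →₀ ℕ) (h : m 0 + m 1 + m 2 = 2) : ∃ i, ex6 i = m := by
  have key : ∀ i : Fin 6, ex6 i 0 = m 0 → ex6 i 1 = m 1 → ex6 i 2 = m 2 → ex6 i = m := by
    intro i h0 h1 h2
    ext j
    fin_cases j
    · exact h0
    · exact h1
    · exact h2
  rcases (by omega : (m 0 = 2 ∧ m 1 = 0 ∧ m 2 = 0) ∨ (m 0 = 1 ∧ m 1 = 1 ∧ m 2 = 0) ∨
    (m 0 = 1 ∧ m 1 = 0 ∧ m 2 = 1) ∨ (m 0 = 0 ∧ m 1 = 2 ∧ m 2 = 0) ∨
    (m 0 = 0 ∧ m 1 = 1 ∧ m 2 = 1) ∨ (m 0 = 0 ∧ m 1 = 0 ∧ m 2 = 2)) with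
    ⟨h0, h1, h2⟩ | ⟨h0, h1, h2⟩ | ⟨h0, h1, h2⟩ | ⟨h0, h1, h2⟩ | ⟨h0, h1, h2⟩ | ⟨h0, h1, h2⟩
  · exact ⟨0, key 0 (by rw [h0]; simp [ex6]) (by rw [h1]; simp [ex6]) (by rw [h2]; simp [ex6])⟩
  · exact ⟨1, key 1 (by rw [h0]; simp [ex6]) (by rw [h1]; simp [ex6]) (by rw [h2]; simp [ex6])⟩
  · exact ⟨2, key 2 (by rw [h0]; simp [ex6]) (by rw [h1]; simp [ex6]) (by rw [h2]; simp [ex6])⟩
  · exact ⟨3, key 3 (by rw [h0]; simp [ex6]) (by rw [h1]; simp [ex6]) (by rw [h2]; simp [ex6])⟩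
  · exact ⟨4, key 4 (by rw [h0]; simp [ex6]) (by rw [h1]; simp [ex6]) (by rw [h2]; simp [ex6])⟩
  · exact ⟨5, key 5 (by rw [h0]; simp [ex6]) (by rw [h1]; simp [ex6]) (by rw [h2]; simp [ex6])⟩

theorem ex6_inj : Function.Injective ex6 := by
  intro i j h
  have h0 := DFunLike.congr_fun h 0
  have h1 := DFunLike.congr_fun h 1
  fin_cases i <;> fin_cases j <;> first | rfl | (simp [ex6] at h0 h1)

theorem deg_of_hom {P : MvPolynomial (Fin 3) ℂ} (hP : P.IsHomogeneous 2) {m : Fin 3 →₀ ℕ}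
    (hm : P.coeff m ≠ 0) : m 0 + m 1 + m 2 = 2 := by
  have h := hP hm
  rw [Finsupp.weight_apply, Finsupp.sum_fintype _ _ (fun _ => by simp), Fin.sum_univ_three] at h
  simpa using h

theorem eval_hom {P : MvPolynomial (Fin 3) ℂ} (hP : P.IsHomogeneous 2) (x y z : ℂ) :
    MvPolynomial.eval ![x, y, z] P = ∑ i, P.coeff (ex6 i) * prods x y z i := by
  rw [MvPolynomial.eval_eq']
  have hsub : P.support ⊆ Finset.univ.map ⟨ex6, ex6_inj⟩ := by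
    intro m hm
    rw [MvPolynomial.mem_support_iff] at hm
    obtain ⟨i, hi⟩ := ex6_surj m (deg_of_hom hP hm)
    rw [Finset.mem_map]
    exact ⟨i, Finset.mem_univ _, hi⟩
  rw [Finset.sum_subset hsub (fun m _ hm => by
    rw [MvPolynomial.notMem_support_iff.1 hm, zero_mul]), Finset.sum_map]
  refine Finset.sum_congr rfl fun i _ => ?_
  congr 1
  rw [Fin.prod_univ_three]
  fin_cases i <;> simp [ex6, prods, pow_two]

/-- `x`, `y` and `z` satisfy a nonzero homogeneous quadratic relation with algebraic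
coefficients. -/
def HQuad (x y z : ℂ) : Prop :=
  ∃ P : MvPolynomial (Fin 3) ℂ, P ≠ 0 ∧ P.IsHomogeneous 2 ∧
    (∀ m, IsAlgebraic ℚ (P.coeff m)) ∧ MvPolynomial.eval ![x, y, z] P = 0

theorem hrel_of_hquad {x y z : ℂ} (h : HQuad x y z) : HRel (algebraicClosure ℚ ℂ) x y z := by
  obtain ⟨P, h0, h2, ha, he⟩ := h
  have hm : ∀ m, P.coeff m ∈ algebraicClosure ℚ ℂ := fun m => mem_algebraicClosure_iff.2 (ha m)
  obtain ⟨m, hm0⟩ := MvPolynomial.ne_zero_iff.1 h0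
  obtain ⟨i, hi⟩ := ex6_surj m (deg_of_hom h2 hm0)
  refine Fintype.not_linearIndependent_iff.2 ⟨fun i => ⟨P.coeff (ex6 i), hm _⟩, ?_, i, ?_⟩
  · rw [eval_hom h2] at he
    exact he
  · intro h
    apply hm0
    rw [← hi]
    exact congrArg Subtype.val h

section

variable (F : Subfield ℂ)

/-- the three-dimensional subspaces of `W` with three independent elements which satisfy a
quadratic relation -/
def QS (W : Submodule F ℂ) : Set (Submodule F ℂ) :=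
  {T | T ≤ W ∧ finrank F T = 3 ∧
    ∃ x ∈ T, ∃ y ∈ T, ∃ z ∈ T, LinearIndependent F ![x, y, z] ∧ HQuad x y z}

theorem qs_sub (W : Submodule F ℂ) : QS F W ⊆ ES (algebraicClosure ℚ ℂ) W := by
  rintro T ⟨h1, h2, x, hx, y, hy, z, hz, hi, hq⟩
  exact ⟨h1, h2, x, hx, y, hy, z, hz, hi, hrel_of_hquad hq⟩

theorem all (hs : QR.Sub F (algebraicClosure ℚ ℂ) ℂ) (r : ℕ) (t : Fin r → ℂ)
    (hF : Free (algebraicClosure ℚ ℂ) (span F (Set.range t))) (U : Submodule F ℂ)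
    (hU : U ≤ span F (insert 1 (Set.range t))) :
    (∀ v : Fin 4 → ℂ, (∀ i, v i ∈ U) → LinearIndependent F v →
      {p : F × F | HQuad (v 0) (v 1 + p.1 * v 3) (v 2 + p.2 * v 3)}.encard ≤ 3) ∧
    (∀ S : Submodule F ℂ, finrank F S = 2 →
      {T ∈ QS F U | S ≤ T}.encard ≤ (finrank F U - 2 : ℕ)) ∧
    (finrank F U = 4 → ∀ x : ℂ, x ≠ 0 → {T ∈ QS F U | x ∈ T}.encard ≤ 3) := by
  have : IsAlgClosed (algebraicClosure ℚ ℂ) := (algebraicClosure.isAlgClosure ℚ ℂ).isAlgClosed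
  have hW : Free0 (algebraicClosure ℚ ℂ) U := by
    rw [span_insert] at hU
    exact (free0_of_free hs hF).mono hU
  have hfW : Module.Finite F (span F (insert 1 (Set.range t))) :=
    Module.Finite.span_of_finite F ((Set.finite_range t).insert 1)
  have hfin : Module.Finite F U := Submodule.finiteDimensional_of_le hU
  refine ⟨fun v hv hi => ?_, fun S hS2 => ?_, fun h4 x hx => ?_⟩
  · refine le_trans (Set.encard_le_encard ?_) (pairsH hs hW v hv hi)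
    intro p hp
    exact hrel_of_hquad hp
  · refine le_trans (Set.encard_le_encard ?_) (through_two hs hW hS2)
    rintro T ⟨hT, hST⟩
    exact ⟨qs_sub F _ hT, hST⟩
  · refine le_trans (Set.encard_le_encard ?_) (three hs hW hx h4 le_rfl)
    rintro T ⟨hT, hxT⟩
    exact ⟨qs_sub F _ hT, hxT, hT.1⟩

end

theorem mainH (hB : BakerAll) (F : Subfield ℂ) (r : ℕ) (t : Fin r → ℂ)
    (hFt : ((∀ c : ℂ, c ∈ F ↔ ∃ q : ℚ, c = q) ∧ ∀ i, IsAlgebraic ℚ (Complex.exp (t i))) ∨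
      ∃ ω₁ ω₂ : ℂ, (ω₂ / ω₁).im ≠ 0 ∧
        IsAlgebraic ℚ (60 * ∑' q : ℤ × ℤ,
          if q = 0 then (0 : ℂ) else 1 / ((q.1 : ℂ) * ω₁ + (q.2 : ℂ) * ω₂) ^ 4) ∧
        IsAlgebraic ℚ (140 * ∑' q : ℤ × ℤ,
          if q = 0 then (0 : ℂ) else 1 / ((q.1 : ℂ) * ω₁ + (q.2 : ℂ) * ω₂) ^ 6) ∧
        (∀ c : ℂ, c ∈ F ↔ ∃ a b a' b' : ℚ,
          c * ω₁ = (a : ℂ) * ω₁ + (b : ℂ) * ω₂ ∧ c * ω₂ = (a' : ℂ) * ω₁ + (b' : ℂ) * ω₂) ∧
        ∀ i, (∃ a b : ℤ, t i = (a : ℂ) * ω₁ + (b : ℂ) * ω₂) ∨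
          IsAlgebraic ℚ (1 / t i ^ 2 + ∑' q : ℤ × ℤ,
            if q = 0 then (0 : ℂ) else
              (1 / (t i - ((q.1 : ℂ) * ω₁ + (q.2 : ℂ) * ω₂)) ^ 2
                - 1 / ((q.1 : ℂ) * ω₁ + (q.2 : ℂ) * ω₂) ^ 2)))
    (U : Submodule F ℂ) (hU : U ≤ span F (insert 1 (Set.range t))) :
    (∀ v : Fin 4 → ℂ, (∀ i, v i ∈ U) → LinearIndependent F v →
      {p : F × F | HQuad (v 0) (v 1 + p.1 * v 3) (v 2 + p.2 * v 3)}.encard ≤ 3) ∧
    (∀ S : Submodule F ℂ, finrank F S = 2 →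
      {T ∈ QS F U | S ≤ T}.encard ≤ (finrank F U - 2 : ℕ)) ∧
    (finrank F U = 4 → ∀ x : ℂ, x ≠ 0 → {T ∈ QS F U | x ∈ T}.encard ≤ 3) := by
  rcases hFt with ⟨hF, he⟩ | ⟨ω₁, ω₂, him, hg2, hg3, hF, he⟩
  · exact all F (sub_rat F hF) r t (free_logF hB F hF he) U hU
  · obtain ⟨L, rfl, rfl⟩ := ZCM.exists_periodPair ω₁ ω₂ him
    have h2 : IsAlgebraic ℚ L.g₂ := by rw [ZCM.g₂_eq_tsum]; exact hg2
    have h3 : IsAlgebraic ℚ L.g₃ := by rw [ZCM.g₃_eq_tsum]; exact hg3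
    have hF' : ∀ c, c ∈ F ↔ c ∈ EBM.EndF L := fun c => (hF c).trans (endF_iff L c).symm
    refine all F (sub_endF L F hF') r t (free_ell L h2 h3 F hF' fun i => ?_) U hU
    rcases he i with ⟨a, b, hab⟩ | h
    · exact Or.inl (PeriodPair.mem_lattice.2 ⟨a, b, hab.symm⟩)
    · exact Or.inr (by rw [CHU.P_eq_tsum]; exact h)

end Pool.Agent.QNH
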